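import Pool.Agent.OL36.Main

/-!
# MP_28d996_co: free unions of level sets of an additive statistic are exponentially small

`A ⊆ F_3^n` is free if it contains no progression `x, x + d, x + 2d` with `d` a nonzero zero-one vector. Let `G` be an
abelian group, `w i : F_3 → G` arbitrary functions, `f x = ∑ i, w i (x i)`, with `M` different values, and let the free
set `A` be a union of level sets of `f`. Then `|A| ≤ M ^ 2 * 2 ^ n`: density at most `M ^ 2 (2/3)^n`.

The constructions of large sets without combinatorial lines in `[3]^n` (unions of type classes) are of this form, with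
`M` at most `(n + 1)^2`.
-/

set_option autoImplicit false

namespace Pool.Agent.Results.MP_28d996_co.AdditiveStatistics

open Finset

theorem result (n : ℕ) (G : Type) [AddCommGroup G] (w : Fin n → ZMod 3 → G)
    (A : Finset (Fin n → ZMod 3))
    (hA : ∀ x d : Fin n → ZMod 3, (∀ i, d i = 0 ∨ d i = 1) → d ≠ 0 →
      ¬ (x ∈ A ∧ x + d ∈ A ∧ x + 2 • d ∈ A))
    (hw : ∀ x y : Fin n → ZMod 3, ∑ i, w i (x i) = ∑ i, w i (y i) → x ∈ A → y ∈ A) :
    A.card ≤ (Set.range fun x : Fin n → ZMod 3 => ∑ i, w i (x i)).ncard ^ 2 * 2 ^ n := by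
  classical
  have h := OL36.main w A hA hw
  have e : (Set.range fun x : Fin n → ZMod 3 => ∑ i, w i (x i)) =
      ((univ.image fun x : Fin n → ZMod 3 => ∑ i, w i (x i) : Finset G) : Set G) := by
    rw [coe_image, coe_univ, Set.image_univ]
  rw [e, Set.ncard_coe_finset]
  exact h

end Pool.Agent.Results.MP_28d996_co.AdditiveStatistics
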