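import Pool.Agent.PF36.Fib

/-!
# MP_28d996_co: a free set is sparse on almost all cosets of every large subspace

If `A ⊆ F_3^n` contains no progression `x, x + d, x + 2d` with `d` a nonzero zero-one vector, then for every
subspace `H` of dimension `h` at most `3 exp (-h^2 / (12 (n - h))) 3^(n - h)` of the `3^(n - h)` cosets of `H`
contain more than `2/3 3^h` points of `A`.

Proof: the polynomial method in the quotient by `H`. The differences which occur are the images of the
zero-one vectors; their alternating generating function is an iterated difference, of degree at most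
`(n - h) - h` in the `n - h` coordinates of the quotient, so the tensor has a low slice rank.
-/

set_option autoImplicit false

namespace Pool.Agent.Results.MP_28d996_co.DenseCosets

open Finset

theorem result (n : ℕ) (A : Finset (Fin n → ZMod 3))
    (hA : ∀ x d : Fin n → ZMod 3, (∀ i, d i = 0 ∨ d i = 1) → d ≠ 0 →
      ¬ (x ∈ A ∧ x + d ∈ A ∧ x + 2 • d ∈ A))
    (H : Submodule (ZMod 3) (Fin n → ZMod 3)) (h k : ℕ)
    (hh : Module.finrank (ZMod 3) H = h) (hk : h + k = n) :
    ({q : (Fin n → ZMod 3) ⧸ H |
        2 * 3 ^ h < 3 * {x | x ∈ A ∧ H.mkQ x = q}.ncard}.ncard : ℝ) ≤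
      3 * Real.exp (-((h : ℝ) ^ 2 / (12 * k))) * 3 ^ k := by
  classical
  have hq : Module.finrank (ZMod 3) ((Fin n → ZMod 3) ⧸ H) =
      Module.finrank (ZMod 3) (Fin k → ZMod 3) := by
    have h1 := Submodule.finrank_quotient_add_finrank H
    rw [Module.finrank_fintype_fun_eq_card, Fintype.card_fin] at h1
    rw [Module.finrank_fintype_fun_eq_card, Fintype.card_fin]
    omega
  let φ : ((Fin n → ZMod 3) ⧸ H) ≃ₗ[ZMod 3] (Fin k → ZMod 3) := LinearEquiv.ofFinrankEq _ _ hq
  have h1 := Pool.PF36.fibres A (fun x d h0 hd => hA x d hd h0) (φ.toLinearMap ∘ₗ H.mkQ)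
    (φ.surjective.comp (Submodule.mkQ_surjective H))
  have hnk : n - k = h := by omega
  rw [hnk] at h1
  refine le_trans ?_ (h1.trans (le_of_eq (by ring)))
  norm_cast
  rw [← Set.ncard_image_of_injective _ φ.injective, ← Set.ncard_coe_finset]
  refine Set.ncard_le_ncard ?_ (Set.toFinite _)
  rintro _ ⟨q, hq, rfl⟩
  simp only [Finset.coe_filter, Finset.mem_univ, true_and, Set.mem_ofPred_eq] at hq ⊢
  have h2 : (A.filter fun x => (φ.toLinearMap ∘ₗ H.mkQ) x = φ q).card =
      {x | x ∈ A ∧ H.mkQ x = q}.ncard := by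
    rw [← Set.ncard_coe_finset]
    congr 1
    ext x
    simp
  rw [h2]
  exact hq

end Pool.Agent.Results.MP_28d996_co.DenseCosets
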