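import Pool.Agent.H24AP.Iter

/-!
# MP_28d996_co: a logarithmic upper bound

Every subset of `(ZMod 3)^n`, `n ≥ 2`, without a progression `x, x + d, x + 2d` with `d` a nonzero
zero-one vector has density at most `10 (log n)^(-1/16)`.
-/

namespace Pool.Agent.Results.MP_28d996_co.LogBound

open Finset
open scoped BigOperators

theorem result (n : ℕ) (hn : 2 ≤ n) (A : Finset (Fin n → ZMod 3))
    (hA : ∀ x d : Fin n → ZMod 3, (∀ i, d i = 0 ∨ d i = 1) → d ≠ 0 →
      ¬ (x ∈ A ∧ x + d ∈ A ∧ x + 2 • d ∈ A)) :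
    (A.card : ℝ) / 3 ^ n ≤ 10 * Real.log n ^ (-(1 / 16) : ℝ) := by
  classical
  have h1 := H24AP.main_bound n hn (fun x => if x ∈ A then (1 : ℝ) else 0)
    { zo := by
        intro x
        by_cases h : x ∈ A <;> simp [h]
      fr := by
        intro x d hd hd0
        have h := hA x d hd hd0
        rw [two_nsmul, ← add_assoc] at h
        by_cases h1 : x ∈ A
        · by_cases h2 : x + d ∈ A
          · have h3 : x + d + d ∉ A := fun h3 => h ⟨h1, h2, h3⟩
            simp [h3]
          · simp [h2]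
        · simp [h1] }
  have h2 : 𝔼 x : Fin n → ZMod 3, (if x ∈ A then (1 : ℝ) else 0) = (A.card : ℝ) / 3 ^ n := by
    rw [Fintype.expect_eq_sum_div_card, Finset.sum_ite_mem, Finset.univ_inter, Finset.sum_const,
      nsmul_eq_mul, mul_one]
    congr 1
    simp [ZMod.card]
  rwa [h2] at h1

end Pool.Agent.Results.MP_28d996_co.LogBound
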