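import Mathlib

/-!
# MP_28d996_co : exponential lower bound for free sets

A cap set `C ⊆ F_3^k` lifts along `(x_1, ..., x_{2k}) ↦ (x_1 + x_2, x_3 + x_4, ...)`, whose kernel
contains no nonzero vector of `{0,1}^{2k}`, to a free subset of `F_3^{2k}` of the same density.
Powers of `C` and restriction to fewer coordinates (averaging) give free sets in every dimension.
The numerical bound uses a cap set of size 112 in `F_3^6`.
-/

set_option autoImplicit false

namespace Pool.Agent.FS18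

/-! ### The 112-cap in `F_3^6` -/

def dg (c i : ℕ) : ℕ := c / 3 ^ i % 3

def td (a b i : ℕ) : ℕ := (6 - dg a i - dg b i) % 3

def th (a b : ℕ) : ℕ :=
  td a b 0 + 3 * td a b 1 + 9 * td a b 2 + 27 * td a b 3 + 81 * td a b 4 + 243 * td a b 5

def msk : ℕ := 1501981063492961411952637445447124447754428995474048756391141281132566834771754234672320410453904927893965483302964397750490341890341595995365955859177605172773525863330701837985157925227981851649532767068699542662897664

def lst : List ℕ := (List.range 729).filter (fun c => msk.testBit c)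

theorem chk_len : lst.length = 112 := by decide +kernel

theorem chk : (lst.all (fun a => lst.all (fun b => a == b || !(msk.testBit (th a b))))) = true := by
  decide +kernel

def enc (x : Fin 6 → ZMod 3) : ℕ :=
  (x 0).val + 3 * (x 1).val + 9 * (x 2).val + 27 * (x 3).val + 81 * (x 4).val + 243 * (x 5).val

theorem enc_lt (x : Fin 6 → ZMod 3) : enc x < 729 := by
  have h0 := ZMod.val_lt (x 0)
  have h1 := ZMod.val_lt (x 1)
  have h2 := ZMod.val_lt (x 2)
  have h3 := ZMod.val_lt (x 3)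
  have h4 := ZMod.val_lt (x 4)
  have h5 := ZMod.val_lt (x 5)
  unfold enc
  omega

theorem dg_enc (x : Fin 6 → ZMod 3) (i : Fin 6) : dg (enc x) i.1 = (x i).val := by
  have h0 := ZMod.val_lt (x 0)
  have h1 := ZMod.val_lt (x 1)
  have h2 := ZMod.val_lt (x 2)
  have h3 := ZMod.val_lt (x 3)
  have h4 := ZMod.val_lt (x 4)
  have h5 := ZMod.val_lt (x 5)
  unfold dg enc
  fin_cases i <;> simp <;> omega

theorem enc_inj {x y : Fin 6 → ZMod 3} (h : enc x = enc y) : x = y := by
  funext i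
  apply ZMod.val_injective
  rw [← dg_enc x i, ← dg_enc y i, h]

def dec (c : ℕ) : Fin 6 → ZMod 3 := fun i => ((dg c i.1 : ℕ) : ZMod 3)

theorem enc_dec {c : ℕ} (hc : c < 729) : enc (dec c) = c := by
  have hv : ∀ i : Fin 6, (dec c i).val = dg c i.1 := by
    intro i
    unfold dec
    rw [ZMod.val_natCast, Nat.mod_eq_of_lt]
    exact Nat.mod_lt _ (by norm_num)
  unfold enc
  rw [hv 0, hv 1, hv 2, hv 3, hv 4, hv 5]
  simp only [dg]
  norm_num
  omega

theorem val_third (u v : ZMod 3) : (u + 2 • v).val = (6 - u.val - (u + v).val) % 3 := by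
  revert u v
  decide

theorem enc_third (x d : Fin 6 → ZMod 3) : enc (x + 2 • d) = th (enc x) (enc (x + d)) := by
  have key : ∀ i : Fin 6, td (enc x) (enc (x + d)) i.1 = ((x + 2 • d) i).val := by
    intro i
    unfold td
    rw [dg_enc, dg_enc, Pi.add_apply, Pi.add_apply, Pi.smul_apply, val_third]
  have k0 := key 0
  have k1 := key 1
  have k2 := key 2
  have k3 := key 3
  have k4 := key 4
  have k5 := key 5
  unfold th
  conv_lhs => unfold enc
  rw [← k0, ← k1, ← k2, ← k3, ← k4, ← k5]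
  rfl

def cap : Finset (Fin 6 → ZMod 3) := Finset.univ.filter (fun x => msk.testBit (enc x) = true)

theorem mem_lst {c : ℕ} : c ∈ lst ↔ c < 729 ∧ msk.testBit c = true := by
  unfold lst
  rw [List.mem_filter, List.mem_range]

theorem cap_free (x d : Fin 6 → ZMod 3) (hd : d ≠ 0) :
    ¬ (x ∈ cap ∧ x + d ∈ cap ∧ x + 2 • d ∈ cap) := by
  rintro ⟨h1, h2, h3⟩
  simp only [cap, Finset.mem_filter, Finset.mem_univ, true_and] at h1 h2 h3
  have hall := chk
  rw [List.all_eq_true] at hall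
  have ha := hall (enc x) (mem_lst.2 ⟨enc_lt x, h1⟩)
  rw [List.all_eq_true] at ha
  have hb := ha (enc (x + d)) (mem_lst.2 ⟨enc_lt _, h2⟩)
  rw [← enc_third, h3] at hb
  have hne : enc x ≠ enc (x + d) := by
    intro h
    have := enc_inj h
    apply hd
    have h5 : x + 0 = x + d := by rw [add_zero]; exact this
    exact (add_left_cancel h5).symm
  simp [hne] at hb

theorem cap_card : 112 ≤ cap.card := by
  classical
  have hnd : lst.Nodup := List.Nodup.filter _ List.nodup_range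
  have h1 : lst.toFinset.card = 112 := by
    rw [List.toFinset_card_of_nodup hnd, chk_len]
  rw [← h1]
  refine Finset.card_le_card_of_injOn dec ?_ ?_
  · intro c hc
    have hc' : c ∈ lst := by simpa using hc
    obtain ⟨h2, h3⟩ := mem_lst.1 hc'
    simp only [cap, Finset.coe_filter, Set.mem_ofPred_eq, Finset.mem_univ, true_and]
    rw [enc_dec h2]
    exact h3
  · intro c hc c' hc' h
    have hc1 : c ∈ lst := by simpa using hc
    have hc2 : c' ∈ lst := by simpa using hc'
    have e1 := enc_dec (mem_lst.1 hc1).1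
    have e2 := enc_dec (mem_lst.1 hc2).1
    rw [← e1, ← e2, h]

/-! ### Lifting a power of a cap set -/

section lift

variable {k m : ℕ}

/-- the pairing map on block `j` -/
def pr (x : Fin m × Fin k × Bool → ZMod 3) (j : Fin m) : Fin k → ZMod 3 :=
  fun i => x (j, i, false) + x (j, i, true)

open Classical in
/-- the lifted set -/
noncomputable def big (C : Finset (Fin k → ZMod 3)) (m : ℕ) :
    Finset (Fin m × Fin k × Bool → ZMod 3) :=
  Finset.univ.filter (fun x => ∀ j, pr x j ∈ C)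

theorem mem_big {C : Finset (Fin k → ZMod 3)} {x : Fin m × Fin k × Bool → ZMod 3} :
    x ∈ big C m ↔ ∀ j, pr x j ∈ C := by
  simp [big]

def up (f : Fin m → (Fin k → ZMod 3) × (Fin k → ZMod 3)) : Fin m × Fin k × Bool → ZMod 3 :=
  fun p => if p.2.2 = true then (f p.1).2 p.2.1 else (f p.1).1 p.2.1 - (f p.1).2 p.2.1

theorem pr_up (f : Fin m → (Fin k → ZMod 3) × (Fin k → ZMod 3)) (j : Fin m) :
    pr (up f) j = (f j).1 := by
  funext i
  simp [pr, up]

theorem up_inj : Function.Injective (up : (Fin m → (Fin k → ZMod 3) × (Fin k → ZMod 3)) → _) := by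
  intro f g h
  funext j
  apply Prod.ext
  · rw [← pr_up f j, ← pr_up g j, h]
  · funext i
    have := congrFun h (j, i, true)
    simpa [up] using this

theorem big_card (C : Finset (Fin k → ZMod 3)) (m : ℕ) :
    (C.card * 3 ^ k) ^ m ≤ (big C m).card := by
  classical
  have h1 : (Fintype.piFinset (fun _ : Fin m =>
      (C ×ˢ (Finset.univ : Finset (Fin k → ZMod 3))))).card = (C.card * 3 ^ k) ^ m := by
    rw [Fintype.card_piFinset]
    simp [Finset.card_product, ZMod.card]
  rw [← h1]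
  refine Finset.card_le_card_of_injOn up ?_ (up_inj.injOn)
  intro f hf
  have hf' : ∀ j, (f j).1 ∈ C := by
    intro j
    have := Fintype.mem_piFinset.1 (Finset.mem_coe.1 hf) j
    exact (Finset.mem_product.1 this).1
  rw [Finset.mem_coe, mem_big]
  intro j
  rw [pr_up]
  exact hf' j

theorem big_free {C : Finset (Fin k → ZMod 3)}
    (hC : ∀ x d : Fin k → ZMod 3, d ≠ 0 → ¬ (x ∈ C ∧ x + d ∈ C ∧ x + 2 • d ∈ C))
    (x d : Fin m × Fin k × Bool → ZMod 3) (hd : ∀ i, d i = 0 ∨ d i = 1) (hd0 : d ≠ 0) :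
    ¬ (x ∈ big C m ∧ x + d ∈ big C m ∧ x + 2 • d ∈ big C m) := by
  rintro ⟨h1, h2, h3⟩
  rw [mem_big] at h1 h2 h3
  obtain ⟨⟨j, i, b⟩, hp⟩ := Function.ne_iff.1 hd0
  have hpr : pr d j ≠ 0 := by
    intro h
    have h4 := congrFun h i
    simp only [pr, Pi.zero_apply] at h4
    have h5 : d (j, i, b) = 1 := (hd _).resolve_left hp
    have key : ∀ u v : ZMod 3, (u = 0 ∨ u = 1) → (v = 0 ∨ v = 1) → u + v = 0 →
        u = 0 ∧ v = 0 := by decide
    obtain ⟨ha, hb⟩ := key _ _ (hd (j, i, false)) (hd (j, i, true)) h4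
    cases b
    · exact hp ha
    · exact hp hb
  refine hC (pr x j) (pr d j) hpr ⟨h1 j, ?_, ?_⟩
  · have := h2 j
    have e : pr (x + d) j = pr x j + pr d j := by
      funext i'
      simp only [pr, Pi.add_apply]
      ring
    rwa [e] at this
  · have := h3 j
    have e : pr (x + 2 • d) j = pr x j + 2 • pr d j := by
      funext i'
      simp only [two_nsmul, pr, Pi.add_apply]
      ring
    rwa [e] at this

end lift

/-! ### Restriction to fewer coordinates -/

theorem extend_add {ι : Type*} {n : ℕ} (e : Fin n ↪ ι) (z d : Fin n → ZMod 3) (y : ι → ZMod 3) :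
    Function.extend e (z + d) y = Function.extend e z y + Function.extend e d 0 := by
  funext i
  by_cases h : ∃ a, e a = i
  · obtain ⟨a, rfl⟩ := h
    simp [e.injective.extend_apply]
  · simp [Function.extend_apply' _ _ _ h]

theorem restrict {ι : Type*} [Fintype ι] [DecidableEq ι] {n : ℕ} (e : Fin n ↪ ι)
    (A : Finset (ι → ZMod 3))
    (hA : ∀ x d : ι → ZMod 3, (∀ i, d i = 0 ∨ d i = 1) → d ≠ 0 →
      ¬ (x ∈ A ∧ x + d ∈ A ∧ x + 2 • d ∈ A)) :
    ∃ B : Finset (Fin n → ZMod 3),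
      (∀ x d : Fin n → ZMod 3, (∀ i, d i = 0 ∨ d i = 1) → d ≠ 0 →
        ¬ (x ∈ B ∧ x + d ∈ B ∧ x + 2 • d ∈ B)) ∧
      A.card * 3 ^ n ≤ B.card * 3 ^ Fintype.card ι := by
  classical
  let S : (ι → ZMod 3) → Finset (Fin n → ZMod 3) := fun y =>
    Finset.univ.filter (fun z => Function.extend e z y ∈ A)
  have hS : ∀ y z, z ∈ S y ↔ Function.extend e z y ∈ A := by
    intro y z
    simp [S]
  have hfree : ∀ y, ∀ x d : Fin n → ZMod 3, (∀ i, d i = 0 ∨ d i = 1) → d ≠ 0 →
        ¬ (x ∈ S y ∧ x + d ∈ S y ∧ x + 2 • d ∈ S y) := by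
    intro y x d hd hd0 ⟨h1, h2, h3⟩
    rw [hS] at h1 h2 h3
    refine hA (Function.extend e x y) (Function.extend e d 0) ?_ ?_ ⟨h1, ?_, ?_⟩
    · intro i
      by_cases h : ∃ a, e a = i
      · obtain ⟨a, rfl⟩ := h
        rw [e.injective.extend_apply]
        exact hd a
      · left
        rw [Function.extend_apply' _ _ _ h]
        rfl
    · intro h
      apply hd0
      funext a
      have := congrFun h (e a)
      rwa [e.injective.extend_apply] at this
    · rwa [extend_add] at h2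
    · rw [two_nsmul, ← add_assoc] at h3
      rw [extend_add, extend_add, add_assoc, ← two_nsmul] at h3
      exact h3
  -- averaging
  have hsum : A.card * 3 ^ n ≤ ∑ y : ι → ZMod 3, (S y).card := by
    have h1 : ∑ y : ι → ZMod 3, (S y).card
        = ((Finset.univ : Finset (ι → ZMod 3)).sigma S).card := by
      rw [Finset.card_sigma]
    have h2 : A.card * 3 ^ n = (A ×ˢ (Finset.univ : Finset (Fin n → ZMod 3))).card := by
      rw [Finset.card_product]
      simp [ZMod.card]
    rw [h1, h2]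
    refine Finset.card_le_card_of_injOn
      (fun p => (⟨Function.extend e p.2 p.1, fun a => p.1 (e a)⟩ :
        (_ : ι → ZMod 3) × (Fin n → ZMod 3))) ?_ ?_
    · rintro ⟨w, u⟩ hp
      have hw : w ∈ A := (Finset.mem_product.1 (Finset.mem_coe.1 hp)).1
      rw [Finset.mem_coe, Finset.mem_sigma]
      refine ⟨Finset.mem_univ _, ?_⟩
      rw [hS]
      have e1 : Function.extend e (fun a => w (e a)) (Function.extend e u w) = w := by
        funext i
        by_cases h : ∃ a, e a = i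
        · obtain ⟨a, rfl⟩ := h
          rw [e.injective.extend_apply]
        · rw [Function.extend_apply' _ _ _ h, Function.extend_apply' _ _ _ h]
      simpa [e1] using hw
    · rintro ⟨w, u⟩ _ ⟨w', u'⟩ _ h
      simp only [Sigma.mk.injEq, heq_eq_eq] at h
      obtain ⟨h1, h2⟩ := h
      have hu : u = u' := by
        funext a
        have := congrFun h1 (e a)
        rwa [e.injective.extend_apply, e.injective.extend_apply] at this
      have hw : w = w' := by
        funext i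
        by_cases h : ∃ a, e a = i
        · obtain ⟨a, rfl⟩ := h
          exact congrFun h2 a
        · have := congrFun h1 i
          rwa [Function.extend_apply' _ _ _ h, Function.extend_apply' _ _ _ h] at this
      rw [hu, hw]
  by_contra hcon
  have hlt : ∀ y, (S y).card * 3 ^ Fintype.card ι < A.card * 3 ^ n := fun y => by
    by_contra h
    exact hcon ⟨S y, hfree y, not_lt.1 h⟩
  have hc : (Finset.univ : Finset (ι → ZMod 3)).card = 3 ^ Fintype.card ι := by
    simp [ZMod.card]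
  have h6 : ∑ y : ι → ZMod 3, (S y).card * 3 ^ Fintype.card ι
      < ∑ _y : ι → ZMod 3, A.card * 3 ^ n :=
    Finset.sum_lt_sum_of_nonempty Finset.univ_nonempty fun y _ => hlt y
  rw [Finset.sum_const, hc, ← Finset.sum_mul, smul_eq_mul, mul_comm] at h6
  have h7 := Nat.lt_of_mul_lt_mul_left h6
  omega

theorem lower {k : ℕ} (C : Finset (Fin k → ZMod 3))
    (hC : ∀ x d : Fin k → ZMod 3, d ≠ 0 → ¬ (x ∈ C ∧ x + d ∈ C ∧ x + 2 • d ∈ C))
    (m n : ℕ) (hn : n ≤ 2 * k * m) :
    ∃ A : Finset (Fin n → ZMod 3),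
      (∀ x d : Fin n → ZMod 3, (∀ i, d i = 0 ∨ d i = 1) → d ≠ 0 →
        ¬ (x ∈ A ∧ x + d ∈ A ∧ x + 2 • d ∈ A)) ∧
      ((C.card : ℝ) / 3 ^ k) ^ m ≤ (A.card : ℝ) / 3 ^ n := by
  classical
  have hcard : Fintype.card (Fin m × Fin k × Bool) = 2 * k * m := by
    simp only [Fintype.card_prod, Fintype.card_fin, Fintype.card_bool]
    ring
  have hle : Fintype.card (Fin n) ≤ Fintype.card (Fin m × Fin k × Bool) := by
    rw [hcard, Fintype.card_fin]
    exact hn
  obtain ⟨e⟩ := Function.Embedding.nonempty_of_card_le hle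
  obtain ⟨B, hB, hBc⟩ := restrict e (big C m) (fun x d => big_free hC x d)
  refine ⟨B, hB, ?_⟩
  have h1 : (C.card * 3 ^ k) ^ m * 3 ^ n ≤ B.card * 3 ^ (2 * k * m) := by
    calc (C.card * 3 ^ k) ^ m * 3 ^ n ≤ (big C m).card * 3 ^ n :=
          Nat.mul_le_mul_right _ (big_card C m)
      _ ≤ B.card * 3 ^ (2 * k * m) := by rw [← hcard]; exact hBc
  have h2 : (((C.card : ℝ) * 3 ^ k) ^ m * 3 ^ n) ≤ (B.card : ℝ) * 3 ^ (2 * k * m) := by
    exact_mod_cast h1
  have h3 : (3 : ℝ) ^ (2 * k * m) = ((3 ^ k) ^ m) * ((3 ^ k) ^ m) := by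
    rw [← pow_mul, ← pow_add]
    congr 1
    ring
  have hp : (0 : ℝ) < (3 ^ k) ^ m := by positivity
  rw [div_pow, div_le_div_iff₀ hp (by positivity)]
  rw [h3, mul_pow] at h2
  have h4 : ((3 : ℝ) ^ k) ^ m * ((C.card : ℝ) ^ m * 3 ^ n)
      ≤ ((3 : ℝ) ^ k) ^ m * ((B.card : ℝ) * (3 ^ k) ^ m) := by
    calc ((3 : ℝ) ^ k) ^ m * ((C.card : ℝ) ^ m * 3 ^ n)
        = (C.card : ℝ) ^ m * (3 ^ k) ^ m * 3 ^ n := by ring
      _ ≤ (B.card : ℝ) * ((3 ^ k) ^ m * (3 ^ k) ^ m) := h2
      _ = _ := by ring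
  exact le_of_mul_le_mul_left h4 hp

end Pool.Agent.FS18

namespace Pool.Agent.Results.MP_28d996_co.LowerBound

open Pool.Agent.FS18

theorem result :
    (∀ (k : ℕ) (C : Finset (Fin k → ZMod 3)),
      (∀ x d : Fin k → ZMod 3, d ≠ 0 → ¬ (x ∈ C ∧ x + d ∈ C ∧ x + 2 • d ∈ C)) →
      ∀ m n : ℕ, n ≤ 2 * k * m →
        ∃ A : Finset (Fin n → ZMod 3),
          (∀ x d : Fin n → ZMod 3, (∀ i, d i = 0 ∨ d i = 1) → d ≠ 0 →
            ¬ (x ∈ A ∧ x + d ∈ A ∧ x + 2 • d ∈ A)) ∧
          ((C.card : ℝ) / 3 ^ k) ^ m ≤ (A.card : ℝ) / 3 ^ n) ∧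
    (∀ n : ℕ, ∃ A : Finset (Fin n → ZMod 3),
      (∀ x d : Fin n → ZMod 3, (∀ i, d i = 0 ∨ d i = 1) → d ≠ 0 →
        ¬ (x ∈ A ∧ x + d ∈ A ∧ x + 2 • d ∈ A)) ∧
      (0.8554 : ℝ) ^ (n + 11) ≤ (A.card : ℝ) / 3 ^ n) := by
  refine ⟨fun k C hC m n hn => lower C hC m n hn, fun n => ?_⟩
  obtain ⟨A, hA, hc⟩ := lower cap cap_free ((n + 11) / 12) n (by omega)
  refine ⟨A, hA, le_trans ?_ hc⟩
  have h1 : (112 : ℝ) / 3 ^ 6 ≤ (cap.card : ℝ) / 3 ^ 6 := by
    have : (112 : ℝ) ≤ (cap.card : ℝ) := by exact_mod_cast cap_card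
    gcongr
  have h2 : (0.8554 : ℝ) ^ 12 ≤ (cap.card : ℝ) / 3 ^ 6 := by
    refine le_trans ?_ h1
    norm_num
  calc (0.8554 : ℝ) ^ (n + 11) ≤ (0.8554 : ℝ) ^ (12 * ((n + 11) / 12)) :=
        pow_le_pow_of_le_one (by norm_num) (by norm_num) (by omega)
    _ = ((0.8554 : ℝ) ^ 12) ^ ((n + 11) / 12) := pow_mul _ _ _
    _ ≤ ((cap.card : ℝ) / 3 ^ 6) ^ ((n + 11) / 12) := by
        gcongr

end Pool.Agent.Results.MP_28d996_co.LowerBound
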